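import Pool.Agent.P.MP_28369d_gt.ST.FinF

/-! If the superbridge index is at most the bridge index plus two, the roots of the Alexander
polynomial are roots of a polynomial with few terms. -/

namespace Pool.Agent.Results.MP_28369d_gt.Fewnomial

open Pool.Agent.P.MP_28369d_gt.SB

theorem result (m : ℕ) : ∃ C : ℕ, ∀ P : Poly, br P.carrier = m → sb P.carrier ≤ m + 2 →
    ∃ D : Polynomial ℤ, FewP D C ∧ ∀ t : ℂ, t ≠ -1 → AffC P.carrier t → Root D t := finF m

end Pool.Agent.Results.MP_28369d_gt.Fewnomial
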