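import Pool.Agent.P.MP_28369d_gt.ST.FinS

/-! Structure of knots of bounded superbridge index: a bounded number of braid boxes with at most
`sb - br` strands each. -/

namespace Pool.Agent.Results.MP_28369d_gt.Structure

open Pool.Agent.P.MP_28369d_gt.SB

theorem result (n : ℕ) : ∃ N : ℕ, ∀ P : Poly, sb P.carrier = n →
    ∃ Q : Poly, Iso P.carrier Q.carrier ∧ Boxed Q N (max 1 (n - br P.carrier)) := finS n

end Pool.Agent.Results.MP_28369d_gt.Structure
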