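import Pool.Agent.P.MP_28369d_gt.ST.FinP

/-! The superbridge index of a sum with the torus knot `T(p, q)`, `q` large, is at least the bridge
index plus `p`. -/

namespace Pool.Agent.Results.MP_28369d_gt.TorusBridge

open Pool.Agent.P.MP_28369d_gt.SB

theorem result (p m : ℕ) : ∃ C : ℕ, ∀ (q : ℤ) (J K : Set E), 2 ≤ p → IsCoprime (p : ℤ) q →
    (C : ℤ) < |q| → (ConnSum (torus p q) J K ∨ ConnSum J (torus p q) K) → m ≤ br K →
    m + p ≤ sb K := finPB p m

end Pool.Agent.Results.MP_28369d_gt.TorusBridge
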