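import Pool.Agent.P.MP_28369d_gt.ST.FinP

/-! The inequality of Q1 for pairs of torus knots `T(p, q)`, `T(p', q')` with `p' ≤ 2 p - 2` and
`q` large. -/

namespace Pool.Agent.Results.MP_28369d_gt.TorusPairsAll

open Pool.Agent.P.MP_28369d_gt.SB

theorem result (p : ℕ) : ∃ C : ℕ, ∀ (p' : ℕ) (q q' : ℤ) (K : Set E), 2 ≤ p' → p' ≤ 2 * p - 2 →
    IsCoprime (p : ℤ) q → IsCoprime (p' : ℤ) q' → (C : ℤ) < |q| → (p' : ℤ) ≤ |q'| →
    (ConnSum (torus p q) (torus p' q') K ∨ ConnSum (torus p' q') (torus p q) K) →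
    max (sb (torus p q)) (sb (torus p' q')) < sb K := finPP p

end Pool.Agent.Results.MP_28369d_gt.TorusPairsAll
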